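import Pool.Agent.Run7.h495.SV.Stm

/-!
Project SV (helper495, MP_fd6526_gt Q2), piece CUBE.
-/

set_option autoImplicit false
open MeasureTheory Set Filter Topology Metric Module
open scoped ENNReal RealInnerProductSpace ContDiff

namespace Run7.h824.SV

open Pool.Agent.Run7.h495.SV

theorem vol_box (n : ℕ) (a b : Fin n → ℝ) :
    volume {x : Eu n | ∀ i, x i ∈ Icc (a i) (b i)} = ∏ i, ENNReal.ofReal (b i - a i) := by
  have h := (PiLp.volume_preserving_ofLp (Fin n)).measure_preimage
    (s := Set.pi univ fun i => Icc (a i) (b i))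
    (MeasurableSet.univ_pi fun i => measurableSet_Icc).nullMeasurableSet
  rw [volume_pi_pi] at h
  simp only [Real.volume_Icc] at h
  rw [← h]
  congr 1
  ext x
  simp only [Set.mem_ofPred_eq, mem_preimage, Set.mem_pi, mem_univ, true_implies]

theorem cube_eq (n : ℕ) : cube n = {x : Eu n | ∀ i, x i ∈ Icc (-1 : ℝ) 1} := by
  ext x
  simp only [cube, Set.mem_ofPred_eq, abs_le, mem_Icc]

theorem vol_cube (n : ℕ) : volume (cube n) = ENNReal.ofReal (2 ^ n) := by
  rw [cube_eq, vol_box n (fun _ => -1) (fun _ => 1)]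
  rw [Finset.prod_const, Finset.card_univ, Fintype.card_fin, ENNReal.ofReal_pow (by norm_num)]
  norm_num

theorem inter_eq (n : ℕ) (v : Eu n) : {y : Eu n | y ∈ cube n ∧ y + v ∈ cube n} =
    {y : Eu n | ∀ i, y i ∈ Icc (max (-1) (-1 - v i)) (min 1 (1 - v i))} := by
  ext y
  simp only [cube, Set.mem_ofPred_eq, abs_le, mem_Icc, PiLp.add_apply, max_le_iff, le_min_iff]
  constructor
  · rintro ⟨h1, h2⟩ i
    have := h1 i
    have := h2 i
    refine ⟨⟨?_, ?_⟩, ⟨?_, ?_⟩⟩ <;> linarith
  · intro h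
    refine ⟨fun i => ?_, fun i => ?_⟩
    · obtain ⟨⟨h1, h2⟩, ⟨h3, h4⟩⟩ := h i
      exact ⟨h1, h3⟩
    · obtain ⟨⟨h1, h2⟩, ⟨h3, h4⟩⟩ := h i
      constructor <;> linarith

theorem len_eq (t : ℝ) : min 1 (1 - t) - max (-1) (-1 - t) = 2 - |t| := by
  rcases le_total 0 t with h | h
  · rw [abs_of_nonneg h, min_eq_right (by linarith), max_eq_left (by linarith)]
    ring
  · rw [abs_of_nonpos h, min_eq_left (by linarith), max_eq_right (by linarith)]
    ring

theorem cov_nonneg {n : ℕ} (v : Eu n) : 0 ≤ cov v :=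
  Finset.prod_nonneg fun _ _ => le_max_left _ _

theorem vol_inter (n : ℕ) (v : Eu n) :
    volume {y : Eu n | y ∈ cube n ∧ y + v ∈ cube n} = ENNReal.ofReal (cov v) := by
  rw [inter_eq, vol_box n (fun i => max (-1) (-1 - v i)) (fun i => min 1 (1 - v i))]
  unfold cov
  have hp := ENNReal.ofReal_prod_of_nonneg (s := Finset.univ) (f := fun i : Fin n => tent (v i))
    (fun i _ => le_max_left _ _)
  rw [hp]
  refine Finset.prod_congr rfl fun i _ => ?_
  rw [len_eq]
  unfold tent
  rcases le_total 0 (2 - |v i|) with h | h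
  · rw [max_eq_right h]
  · rw [max_eq_left h, ENNReal.ofReal_of_nonpos h, ENNReal.ofReal_zero]

theorem t_CUBE : S_CUBE := by
  intro n x s
  unfold Pool.Agent.R751.RMB.out
  have h1 : {y : Eu n | y ∈ cube n ∧ y + s • x ∉ cube n} =
      cube n \ {y : Eu n | y ∈ cube n ∧ y + s • x ∈ cube n} := by
    ext y
    constructor
    · rintro ⟨h1, h2⟩
      exact ⟨h1, fun h3 => h2 h3.2⟩
    · rintro ⟨h1, h2⟩
      exact ⟨h1, fun h3 => h2 ⟨h1, h3⟩⟩
  have hm : MeasurableSet {y : Eu n | y ∈ cube n ∧ y + s • x ∈ cube n} := by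
    rw [inter_eq]
    have : {y : Eu n | ∀ i, y i ∈ Icc (max (-1) (-1 - (s • x) i)) (min 1 (1 - (s • x) i))} =
        ⋂ i, {y : Eu n | y i ∈ Icc (max (-1) (-1 - (s • x) i)) (min 1 (1 - (s • x) i))} := by
      ext y
      simp
    rw [this]
    refine MeasurableSet.iInter fun i => ?_
    have hc : Measurable fun y : Eu n => y i := by fun_prop
    exact hc measurableSet_Icc
  rw [h1, measure_sdiff (fun y hy => hy.1) hm.nullMeasurableSet
    (by rw [vol_inter]; exact ENNReal.ofReal_ne_top), vol_cube, vol_inter,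
    ENNReal.ofReal_sub _ (cov_nonneg _)]

theorem t_BODY (n : ℕ) : IsCompact (cube n) ∧ Convex ℝ (cube n) ∧ (0 : Eu n) ∈ interior (cube n) ∧
    volume (cube n) = 2 ^ n := by
  refine ⟨?_, ?_, ?_, ?_⟩
  · refine Metric.isCompact_of_isClosed_isBounded ?_ ?_
    · have : cube n = ⋂ i, {y : Eu n | |y i| ≤ 1} := by
        ext y
        simp [cube]
      rw [this]
      refine isClosed_iInter fun i => ?_
      exact isClosed_le (by fun_prop) continuous_const
    · refine (Metric.isBounded_closedBall (x := (0 : Eu n)) (r := Real.sqrt n)).subset fun y hy => ?_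
      rw [mem_closedBall_zero_iff, EuclideanSpace.norm_eq]
      refine Real.sqrt_le_sqrt ?_
      calc ∑ i, ‖y i‖ ^ 2 ≤ ∑ _i : Fin n, (1 : ℝ) := by
            refine Finset.sum_le_sum fun i _ => ?_
            have h1 : |y i| ≤ 1 := hy i
            rw [Real.norm_eq_abs]
            exact pow_le_one₀ (abs_nonneg _) h1
        _ = n := by simp
  · intro x hx y hy a b ha hb hab i
    have h1 : |x i| ≤ 1 := hx i
    have h2 : |y i| ≤ 1 := hy i
    have h3 : (a • x + b • y) i = a * x i + b * y i := by simp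
    rw [h3]
    calc |a * x i + b * y i| ≤ |a * x i| + |b * y i| := abs_add_le _ _
      _ = a * |x i| + b * |y i| := by rw [abs_mul, abs_mul, abs_of_nonneg ha, abs_of_nonneg hb]
      _ ≤ a * 1 + b * 1 := by gcongr
      _ = 1 := by linarith
  · rw [mem_interior_iff_mem_nhds]
    refine Filter.mem_of_superset (Metric.closedBall_mem_nhds (0 : Eu n) one_pos) fun y hy i => ?_
    rw [mem_closedBall_zero_iff] at hy
    have h1 := EuclideanSpace.norm_eq y
    have h2 : |y i| ^ 2 ≤ ∑ j, ‖y j‖ ^ 2 := by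
      have := Finset.single_le_sum (f := fun j => ‖y j‖ ^ 2) (fun _ _ => by positivity)
        (Finset.mem_univ i)
      simpa [Real.norm_eq_abs] using this
    have h3 : |y i| ≤ ‖y‖ := by
      rw [h1]
      exact Real.le_sqrt_of_sq_le h2
    exact h3.trans hy
  · rw [vol_cube, ENNReal.ofReal_pow (by norm_num)]
    norm_num

end Run7.h824.SV
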